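import Mathlib
import Pool.Agent.H770R2.Kad.HAsm

/-!
Homomorphisms of algebras dominated by a *-representation are similar to *-representations.
-/

open scoped ComplexOrder InnerProductSpace

noncomputable section

namespace H711R2.DX

open H759R2.Kad H770R2.Kad

variable {V : Type} [Ring V] [Algebra ℂ V]
  {L : Type} [NormedAddCommGroup L] [InnerProductSpace ℂ L] [CompleteSpace L]
  {H : Type} [NormedAddCommGroup H] [InnerProductSpace ℂ H] [CompleteSpace H]

/-- The range of a homomorphism, as a *-subalgebra. -/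
def rng (R : V →ₐ[ℂ] (L →L[ℂ] L)) (hR : ∀ f, ∃ f', R f' = star (R f)) :
    StarSubalgebra ℂ (L →L[ℂ] L) where
  toSubalgebra := R.range
  star_mem' := by
    rintro a ⟨f, rfl⟩
    obtain ⟨f', hf'⟩ := hR f
    exact ⟨f', hf'⟩

/-- A homomorphism dominated by a *-representation is similar to a *-homomorphism. -/
theorem similar_of_dominated (R : V →ₐ[ℂ] (L →L[ℂ] L)) (hR : ∀ f, ∃ f', R f' = star (R f))
    (P : V →ₐ[ℂ] (H →L[ℂ] H)) (c : ℝ) (hc : 1 ≤ c) (hP : ∀ f, ‖P f‖ ≤ c * ‖R f‖) :
    ∃ S S' : H →L[ℂ] H, S * S' = 1 ∧ S' * S = 1 ∧ ‖S‖ ^ 2 ≤ 864 * (2 * c) ^ 29 ∧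
      ‖S'‖ ^ 2 ≤ 864 * (2 * c) ^ 29 ∧
      ∀ f f', R f' = star (R f) → star (S * P f * S') = S * P f' * S' := by
  classical
  set A0 : StarSubalgebra ℂ (L →L[ℂ] L) := rng R hR with hA0
  set A : StarSubalgebra ℂ (L →L[ℂ] L) := A0.topologicalClosure with hA
  haveI hcl : IsClosed (A : Set (L →L[ℂ] L)) := A0.isClosed_topologicalClosure
  letI : CStarAlgebra A := StarSubalgebra.cstarAlgebra A
  have hmem : ∀ f, R f ∈ A := fun f => A0.le_topologicalClosure ⟨f, rfl⟩
  let e : V →ₗ[ℂ] A :=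
    { toFun := fun f => ⟨R f, hmem f⟩
      map_add' := fun f g => by ext1; exact map_add R f g
      map_smul' := fun z f => by ext1; exact map_smul R z f }
  have he : ∀ f, ((e f : A) : L →L[ℂ] L) = R f := fun f => rfl
  have hd : DenseRange e := by
    rw [Metric.denseRange_iff]
    intro x r hr
    have hx : (x : L →L[ℂ] L) ∈ closure (A0 : Set (L →L[ℂ] L)) := x.2
    rw [Metric.mem_closure_iff] at hx
    obtain ⟨b, ⟨f, hf⟩, hb⟩ := hx r hr
    refine ⟨f, ?_⟩
    change dist (x : L →L[ℂ] L) (R f) < r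
    rw [← hf] at hb
    exact hb
  have hn : ∀ f, ‖P.toLinearMap f‖ ≤ c * ‖e f‖ := hP
  let u : A →L[ℂ] (H →L[ℂ] H) := P.toLinearMap.extendOfNorm e
  have hu : ∀ f, u (e f) = P f := fun f =>
    LinearMap.extendOfNorm_eq (f := P.toLinearMap) (e := e) hd ⟨c, hn⟩ f
  have hub : ∀ a, ‖u a‖ ≤ c * ‖a‖ := fun a => LinearMap.norm_extendOfNorm_apply_le hd c hn a
  have hemul : ∀ f g, e f * e g = e (f * g) := fun f g => by
    ext1
    change R f * R g = R (f * g)
    rw [map_mul]
  have hmul : ∀ a b, u (a * b) = u a * u b := by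
    have h1 : Continuous fun p : A × A => u (p.1 * p.2) :=
      u.continuous.comp continuous_mul
    have h2 : Continuous fun p : A × A => u p.1 * u p.2 :=
      (u.continuous.comp continuous_fst).mul (u.continuous.comp continuous_snd)
    have h3 : (fun p : A × A => u (p.1 * p.2)) = fun p : A × A => u p.1 * u p.2 := by
      refine Continuous.ext_on (hd.prodMap hd) h1 h2 ?_
      rintro _ ⟨⟨f, g⟩, rfl⟩
      change u (e f * e g) = u (e f) * u (e g)
      rw [hemul, hu, hu, hu, map_mul]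
    intro a b
    exact congrFun h3 (a, b)
  have hone : u 1 = 1 := by
    have : (1 : A) = e 1 := by
      ext1
      change (1 : L →L[ℂ] L) = R 1
      rw [map_one]
    rw [this, hu, map_one]
  obtain ⟨S, S', h1, h2, h3, h4, h5⟩ := fin_similar A H u.toLinearMap ⟨hmul, hone⟩ c hc hub
  refine ⟨S, S', h1, h2, h3, h4, fun f f' hff => ?_⟩
  have h6 := h5 (e f)
  have h7 : star (e f) = e f' := by
    ext1
    change star (R f) = R f'
    rw [hff]
  rw [h7] at h6
  change star (S * u (e f) * S') = S * u (e f') * S' at h6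
  rw [hu, hu] at h6
  exact h6

end H711R2.DX
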