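import Mathlib
import Pool.Agent.H711R2.DX.Ext
import Pool.Agent.H278R2.Kad7.DSum

/-!
Unitarizability of representations of groups and coefficients of unitary representations.
-/

open scoped InnerProductSpace

noncomputable section

namespace H711R2.DX

variable {G : Type} [Group G]

section single

variable {K : Type} [NormedAddCommGroup K] [InnerProductSpace ℂ K]

/-- The homomorphism of group algebras given by a representation. -/
def alg (π : G →* (K →L[ℂ] K)) : MonoidAlgebra ℂ G →ₐ[ℂ] (K →L[ℂ] K) :=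
  MonoidAlgebra.lift ℂ (K →L[ℂ] K) G π

theorem alg_apply (π : G →* (K →L[ℂ] K)) (f : MonoidAlgebra ℂ G) :
    alg π f = f.coeff.sum fun a b => b • π a := MonoidAlgebra.lift_apply π f

theorem alg_single (π : G →* (K →L[ℂ] K)) (g : G) (c : ℂ) :
    alg π (MonoidAlgebra.single g c) = c • π g := MonoidAlgebra.lift_single π g c

variable [CompleteSpace K]

/-- A unitary representation as a homomorphism into `B(K)`. -/
def ur (ρ : G →* unitary (K →L[ℂ] K)) : G →* (K →L[ℂ] K) := (unitary (K →L[ℂ] K)).subtype.comp ρ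

theorem ur_apply (ρ : G →* unitary (K →L[ℂ] K)) (g : G) : ur ρ g = (ρ g : K →L[ℂ] K) := rfl

theorem norm_ur_le (ρ : G →* unitary (K →L[ℂ] K)) (g : G) : ‖ur ρ g‖ ≤ 1 := by
  rcases subsingleton_or_nontrivial (K →L[ℂ] K) with h | h
  · have : ur ρ g = 0 := Subsingleton.elim _ _
    rw [this, norm_zero]; exact zero_le_one
  · exact (CStarRing.norm_of_mem_unitary (ρ g).2).le

theorem norm_alg_le (ρ : G →* unitary (K →L[ℂ] K)) (f : MonoidAlgebra ℂ G) :
    ‖alg (ur ρ) f‖ ≤ f.coeff.sum fun _ b => ‖b‖ := by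
  rw [alg_apply, Finsupp.sum, Finsupp.sum]
  refine (norm_sum_le _ _).trans (Finset.sum_le_sum fun a _ => ?_)
  rw [norm_smul]
  exact mul_le_of_le_one_right (norm_nonneg _) (norm_ur_le ρ a)

theorem alg_star (ρ : G →* unitary (K →L[ℂ] K)) (f : MonoidAlgebra ℂ G) :
    ∃ f', alg (ur ρ) f' = star (alg (ur ρ) f) := by
  induction f using MonoidAlgebra.induction_on with
  | of g =>
    refine ⟨MonoidAlgebra.single g⁻¹ 1, ?_⟩
    rw [MonoidAlgebra.of_apply, alg_single, alg_single, one_smul, one_smul, ur_apply, ur_apply,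
      map_inv]
    rfl
  | add f g hf hg =>
    obtain ⟨f', hf'⟩ := hf
    obtain ⟨g', hg'⟩ := hg
    exact ⟨f' + g', by rw [map_add, map_add, star_add, hf', hg']⟩
  | smul r f hf =>
    obtain ⟨f', hf'⟩ := hf
    exact ⟨star r • f', by rw [map_smul, map_smul, star_smul, hf']⟩

end single

/-- `φ` is a coefficient of a unitary representation, that is an element of the Fourier-Stieltjes
algebra `B(G)`. -/
def InB (φ : G → ℂ) : Prop :=
  ∃ (K : Type) (_ : NormedAddCommGroup K) (_ : InnerProductSpace ℂ K) (_ : CompleteSpace K)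
    (ρ : G →* unitary (K →L[ℂ] K)) (x y : K), ∀ g, φ g = ⟪y, (ρ g : K →L[ℂ] K) x⟫_ℂ

/-- The norms of `f` in the unitary representations. -/
def vals (f : MonoidAlgebra ℂ G) : Set ℝ :=
  {r | ∃ (K : Type) (_ : NormedAddCommGroup K) (_ : InnerProductSpace ℂ K) (_ : CompleteSpace K)
    (ρ : G →* unitary (K →L[ℂ] K)), r = ‖alg (ur ρ) f‖}

/-- The norm of the full group C*-algebra. -/
def N (f : MonoidAlgebra ℂ G) : ℝ := sSup (vals f)

theorem bddAbove_vals (f : MonoidAlgebra ℂ G) : BddAbove (vals f) := by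
  refine ⟨f.coeff.sum fun _ b => ‖b‖, ?_⟩
  rintro r ⟨K, _, _, _, ρ, rfl⟩
  exact norm_alg_le ρ f

theorem le_N {K : Type} [NormedAddCommGroup K] [InnerProductSpace ℂ K] [CompleteSpace K]
    (ρ : G →* unitary (K →L[ℂ] K)) (f : MonoidAlgebra ℂ G) : ‖alg (ur ρ) f‖ ≤ N f :=
  le_csSup (bddAbove_vals f) ⟨K, _, _, _, ρ, rfl⟩

theorem vals_nonempty (f : MonoidAlgebra ℂ G) : (vals f).Nonempty :=
  ⟨_, ℂ, inferInstance, inferInstance, inferInstance, 1, rfl⟩

theorem N_nonneg (f : MonoidAlgebra ℂ G) : 0 ≤ N f :=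
  (norm_nonneg _).trans (le_N (K := ℂ) 1 f)

theorem exists_half (f : MonoidAlgebra ℂ G) :
    ∃ (K : Type) (_ : NormedAddCommGroup K) (_ : InnerProductSpace ℂ K) (_ : CompleteSpace K)
      (ρ : G →* unitary (K →L[ℂ] K)), N f ≤ 2 * ‖alg (ur ρ) f‖ := by
  rcases (N_nonneg f).eq_or_lt with h | h
  · exact ⟨ℂ, inferInstance, inferInstance, inferInstance, 1, by rw [← h]; positivity⟩
  · obtain ⟨r, ⟨K, i1, i2, i3, ρ, hr⟩, hlt⟩ := exists_lt_of_lt_csSup (vals_nonempty f)
      (show N f / 2 < N f by linarith)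
    exact ⟨K, i1, i2, i3, ρ, by rw [← hr]; linarith⟩

section dsum

open H770R2.Kad.DSaux

variable {I : Type} {K : I → Type} [∀ i, NormedAddCommGroup (K i)]
  [∀ i, InnerProductSpace ℂ (K i)] [∀ i, CompleteSpace (K i)]

/-- Direct sum of unitary representations, as operators. -/
def dsC (ρ : ∀ i, G →* unitary (K i →L[ℂ] K i)) : G →* (lp K 2 →L[ℂ] lp K 2) where
  toFun g := dgC (fun i => ur (ρ i) g) zero_le_one fun i => norm_ur_le (ρ i) g
  map_one' := by
    ext f i
    rw [dgC_apply, map_one]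
    rfl
  map_mul' a b := by
    ext f i
    rw [dgC_apply, map_mul]
    rfl

theorem dsC_apply (ρ : ∀ i, G →* unitary (K i →L[ℂ] K i)) (g : G) (f : lp K 2) (i : I) :
    dsC ρ g f i = ur (ρ i) g (f i) := rfl

theorem dsC_star (ρ : ∀ i, G →* unitary (K i →L[ℂ] K i)) (g : G) :
    star (dsC ρ g) = dsC ρ g⁻¹ := by
  symm
  rw [ContinuousLinearMap.star_eq_adjoint, ContinuousLinearMap.eq_adjoint_iff]
  intro f h
  rw [lp.inner_eq_tsum, lp.inner_eq_tsum]
  apply tsum_congr
  intro i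
  have h1 : ur (ρ i) g⁻¹ = star (ur (ρ i) g) := by
    rw [ur_apply, ur_apply, map_inv]; rfl
  rw [dsC_apply, dsC_apply, h1, ContinuousLinearMap.star_eq_adjoint,
    ContinuousLinearMap.adjoint_inner_left]

/-- Direct sum of unitary representations. -/
def ds (ρ : ∀ i, G →* unitary (K i →L[ℂ] K i)) : G →* unitary (lp K 2 →L[ℂ] lp K 2) where
  toFun g := ⟨dsC ρ g, by
    rw [Unitary.mem_iff, dsC_star, ← map_mul, ← map_mul, inv_mul_cancel, mul_inv_cancel, map_one]
    exact ⟨rfl, rfl⟩⟩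
  map_one' := by ext1; exact map_one (dsC ρ)
  map_mul' a b := by ext1; exact map_mul (dsC ρ) a b

theorem ur_ds (ρ : ∀ i, G →* unitary (K i →L[ℂ] K i)) : ur (ds ρ) = dsC ρ := rfl

theorem alg_ds (ρ : ∀ i, G →* unitary (K i →L[ℂ] K i)) (f : MonoidAlgebra ℂ G) (x : lp K 2)
    (i : I) : alg (ur (ds ρ)) f x i = alg (ur (ρ i)) f (x i) := by
  induction f using MonoidAlgebra.induction_on with
  | of g =>
    rw [MonoidAlgebra.of_apply, alg_single, alg_single, one_smul, one_smul, ur_ds, dsC_apply]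
  | add f g hf hg =>
    rw [map_add, map_add]
    change (alg (ur (ds ρ)) f x + alg (ur (ds ρ)) g x) i = _
    rw [lp.coeFn_add, Pi.add_apply, hf, hg]
    rfl
  | smul r f hf =>
    rw [map_smul, map_smul]
    change (r • alg (ur (ds ρ)) f x) i = _
    rw [lp.coeFn_smul, Pi.smul_apply, hf]
    rfl

theorem norm_alg_ds (ρ : ∀ i, G →* unitary (K i →L[ℂ] K i)) (f : MonoidAlgebra ℂ G) (i : I) :
    ‖alg (ur (ρ i)) f‖ ≤ ‖alg (ur (ds ρ)) f‖ := by
  classical
  refine ContinuousLinearMap.opNorm_le_bound _ (norm_nonneg _) fun x => ?_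
  have h1 : ‖(lp.single 2 i x : lp K 2)‖ = ‖x‖ := lp.norm_single (by norm_num) i x
  have h2 := (alg (ur (ds ρ)) f).le_opNorm (lp.single 2 i x)
  have h3 := lp.norm_apply_le_norm (p := 2) (by norm_num) (alg (ur (ds ρ)) f (lp.single 2 i x)) i
  rw [alg_ds, lp.single_apply_self] at h3
  rw [h1] at h2
  exact h3.trans h2

end dsum

/-- A unitary representation that gives the norm of the full group C*-algebra up to a factor. -/
theorem exists_univ (G : Type) [Group G] :
    ∃ (L : Type) (_ : NormedAddCommGroup L) (_ : InnerProductSpace ℂ L) (_ : CompleteSpace L)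
      (ρ : G →* unitary (L →L[ℂ] L)), ∀ f, N f ≤ 2 * ‖alg (ur ρ) f‖ := by
  choose K i1 i2 i3 ρ hρ using exists_half (G := G)
  refine ⟨lp K 2, inferInstance, inferInstance, inferInstance, ds ρ, fun f => ?_⟩
  exact (hρ f).trans (mul_le_mul_of_nonneg_left (norm_alg_ds ρ f f) zero_le_two)

end H711R2.DX
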