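import Mathlib
import Pool.Agent.H711R2.DX.Crit2

/-!
Unitarizability of representations of groups: reformulations.
-/

open scoped InnerProductSpace

noncomputable section

namespace H711R2.DX

variable {G : Type} [Group G] {H : Type} [NormedAddCommGroup H] [InnerProductSpace ℂ H]

/-- From isometric operators to unitary operators. -/
def toU {K : Type} [NormedAddCommGroup K] [InnerProductSpace ℂ K] [CompleteSpace K]
    (ρ : G →* (K ≃ₗᵢ[ℂ] K)) : G →* unitary (K →L[ℂ] K) :=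
  Unitary.linearIsometryEquiv.symm.toMonoidHom.comp ρ

/-- From unitary operators to isometric operators. -/
def fromU {K : Type} [NormedAddCommGroup K] [InnerProductSpace ℂ K] [CompleteSpace K]
    (ρ : G →* unitary (K →L[ℂ] K)) : G →* (K ≃ₗᵢ[ℂ] K) :=
  Unitary.linearIsometryEquiv.toMonoidHom.comp ρ

theorem toU_apply {K : Type} [NormedAddCommGroup K] [InnerProductSpace ℂ K] [CompleteSpace K]
    (ρ : G →* (K ≃ₗᵢ[ℂ] K)) (g : G) (x : K) : (toU ρ g : K →L[ℂ] K) x = ρ g x := rfl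

theorem fromU_apply {K : Type} [NormedAddCommGroup K] [InnerProductSpace ℂ K] [CompleteSpace K]
    (ρ : G →* unitary (K →L[ℂ] K)) (g : G) (x : K) :
    fromU ρ g x = (ρ g : K →L[ℂ] K) x := rfl

theorem unitarizable_iff [CompleteSpace H] (π : G →* (H →L[ℂ] H)) (M : ℝ) :
    (∃ S : H ≃L[ℂ] H, (∀ x, ‖S x‖ ^ 2 ≤ M * ‖x‖ ^ 2) ∧ (∀ x, ‖x‖ ^ 2 ≤ M * ‖S x‖ ^ 2) ∧
      ∀ g x, ‖S (π g x)‖ = ‖S x‖) → Unitarizable π := by
  rintro ⟨S, -, -, hS⟩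
  let u : (H →L[ℂ] H)ˣ := ⟨(S : H →L[ℂ] H), (S.symm : H →L[ℂ] H), by ext x; simp, by ext x; simp⟩
  refine ⟨u, ?_⟩
  have hu1 : ∀ x, ((u⁻¹ : (H →L[ℂ] H)ˣ) : H →L[ℂ] H) x = S.symm x := fun x => rfl
  have hu2 : ∀ x, (u : H →L[ℂ] H) x = S x := fun x => rfl
  have h1 : ∀ g, star ((u : H →L[ℂ] H) * π g * ((u⁻¹ : (H →L[ℂ] H)ˣ) : H →L[ℂ] H)) *
      ((u : H →L[ℂ] H) * π g * ((u⁻¹ : (H →L[ℂ] H)ˣ) : H →L[ℂ] H)) = 1 := fun g => by
    rw [ContinuousLinearMap.star_eq_adjoint]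
    refine (ContinuousLinearMap.norm_map_iff_adjoint_comp_self _).mp fun x => ?_
    change ‖(u : H →L[ℂ] H) (π g (((u⁻¹ : (H →L[ℂ] H)ˣ) : H →L[ℂ] H) x))‖ = ‖x‖
    rw [hu2, hS, hu1, ContinuousLinearEquiv.apply_symm_apply]
  have h2 : ∀ g, ((u : H →L[ℂ] H) * π g * ((u⁻¹ : (H →L[ℂ] H)ˣ) : H →L[ℂ] H)) *
      ((u : H →L[ℂ] H) * π g⁻¹ * ((u⁻¹ : (H →L[ℂ] H)ˣ) : H →L[ℂ] H)) = 1 := fun g => by
    calc _ = (u : H →L[ℂ] H) * (π g * π g⁻¹) * ((u⁻¹ : (H →L[ℂ] H)ˣ) : H →L[ℂ] H) := by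
          simp only [mul_assoc, Units.inv_mul_cancel_left]
      _ = 1 := by rw [← map_mul, mul_inv_cancel, map_one, mul_one, Units.mul_inv]
  intro g
  rw [Unitary.mem_iff]
  refine ⟨h1 g, ?_⟩
  have h3 : star ((u : H →L[ℂ] H) * π g * ((u⁻¹ : (H →L[ℂ] H)ˣ) : H →L[ℂ] H)) =
      (u : H →L[ℂ] H) * π g⁻¹ * ((u⁻¹ : (H →L[ℂ] H)ˣ) : H →L[ℂ] H) := by
    calc _ = star ((u : H →L[ℂ] H) * π g * ((u⁻¹ : (H →L[ℂ] H)ˣ) : H →L[ℂ] H)) *
        (((u : H →L[ℂ] H) * π g * ((u⁻¹ : (H →L[ℂ] H)ˣ) : H →L[ℂ] H)) *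
        ((u : H →L[ℂ] H) * π g⁻¹ * ((u⁻¹ : (H →L[ℂ] H)ˣ) : H →L[ℂ] H))) := by rw [h2, mul_one]
      _ = _ := by rw [← mul_assoc, h1, one_mul]
  rw [h3, h2]

theorem exists_equiv_of_unitarizableBy [CompleteSpace H] (π : G →* (H →L[ℂ] H)) (M : ℝ)
    (h : UnitarizableBy π M) :
    ∃ S : H ≃L[ℂ] H, (∀ x, ‖S x‖ ^ 2 ≤ M * ‖x‖ ^ 2) ∧ (∀ x, ‖x‖ ^ 2 ≤ M * ‖S x‖ ^ 2) ∧
      ∀ g x, ‖S (π g x)‖ = ‖S x‖ := by
  obtain ⟨u, h1, h2, h3⟩ := h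
  have hl : ∀ x : H, ((u⁻¹ : (H →L[ℂ] H)ˣ) : H →L[ℂ] H) ((u : H →L[ℂ] H) x) = x := fun w => by
    change (((u⁻¹ : (H →L[ℂ] H)ˣ) : H →L[ℂ] H) * (u : H →L[ℂ] H)) w = w
    rw [Units.inv_mul]; rfl
  have hr : ∀ x : H, (u : H →L[ℂ] H) (((u⁻¹ : (H →L[ℂ] H)ˣ) : H →L[ℂ] H) x) = x := fun w => by
    change ((u : H →L[ℂ] H) * ((u⁻¹ : (H →L[ℂ] H)ˣ) : H →L[ℂ] H)) w = w
    rw [Units.mul_inv]; rfl
  let S : H ≃L[ℂ] H := ContinuousLinearEquiv.equivOfInverse (u : H →L[ℂ] H)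
    ((u⁻¹ : (H →L[ℂ] H)ˣ) : H →L[ℂ] H) hl hr
  have hS : ∀ x, S x = (u : H →L[ℂ] H) x := fun x => rfl
  have sqle : ∀ (T : H →L[ℂ] H), ‖T‖ ^ 2 ≤ M → ∀ x, ‖T x‖ ^ 2 ≤ M * ‖x‖ ^ 2 := by
    intro T hT x
    calc ‖T x‖ ^ 2 ≤ (‖T‖ * ‖x‖) ^ 2 := pow_le_pow_left₀ (norm_nonneg _) (T.le_opNorm x) 2
      _ = ‖T‖ ^ 2 * ‖x‖ ^ 2 := mul_pow _ _ _
      _ ≤ M * ‖x‖ ^ 2 := mul_le_mul_of_nonneg_right hT (sq_nonneg _)
  refine ⟨S, fun x => ?_, fun x => ?_, fun g x => ?_⟩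
  · rw [hS]; exact sqle _ h1 x
  · have := sqle _ h2 (S x)
    rw [hS, hl] at this
    rw [hS]; exact this
  · have h4 := (Unitary.mem_iff.mp (h3 g)).1
    rw [ContinuousLinearMap.star_eq_adjoint] at h4
    have h5 := (ContinuousLinearMap.norm_map_iff_adjoint_comp_self _).mpr h4 (S x)
    rw [hS, hS]
    rw [hS] at h5
    rw [← h5]
    change _ = ‖(u : H →L[ℂ] H) (π g (((u⁻¹ : (H →L[ℂ] H)ˣ) : H →L[ℂ] H) ((u : H →L[ℂ] H) x)))‖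
    rw [hl]

theorem exists_bound_of_unitarizable [CompleteSpace H] (π : G →* (H →L[ℂ] H))
    (h : Unitarizable π) : ∃ M, UnitarizableBy π M := by
  obtain ⟨u, h⟩ := h
  exact ⟨max (‖(u : H →L[ℂ] H)‖ ^ 2) (‖((u⁻¹ : (H →L[ℂ] H)ˣ) : H →L[ℂ] H)‖ ^ 2), u,
    le_max_left _ _, le_max_right _ _, h⟩

/-- The coefficient of a vector whose cyclic subspace carries an invariant Hilbert norm. -/
theorem coef_of_cyc_norm [CompleteSpace H] (π : G →* (H →L[ℂ] H)) (ξ : H) (T : H →L[ℂ] H)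
    (δ : ℝ) (hδ : 0 < δ)
    (hT : ∀ w ∈ cyc π ξ, δ * ‖w‖ ≤ ‖T w‖ ∧ ∀ g, ‖T (π g w)‖ = ‖T w‖) :
    InB fun g => ⟪ξ, π g ξ⟫_ℂ := by
  classical
  let T' : cyc π ξ →ₗ[ℂ] H := (T : H →ₗ[ℂ] H).comp (cyc π ξ).subtype
  let TL : cyc π ξ →L[ℂ] H := T.comp (cyc π ξ).subtypeL
  have hT' : ∀ w : cyc π ξ, δ * ‖w‖ ≤ ‖T' w‖ := fun w => (hT w w.2).1
  have hinj : Function.Injective T' := by
    rw [injective_iff_map_eq_zero]
    intro w hw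
    have h1 := hT' w
    rw [hw, norm_zero] at h1
    have h2 : ‖w‖ ≤ 0 := by
      by_contra hcon
      push Not at hcon
      have := mul_pos hδ hcon
      linarith
    exact norm_le_zero_iff.mp h2
  let R : Submodule ℂ H := LinearMap.range T'
  have hRc : IsClosed (R : Set H) := by
    have h1 : (R : Set H) = Set.range TL := by
      ext x
      exact Iff.rfl
    rw [h1]
    have h2 : AntilipschitzWith (Real.toNNReal δ⁻¹) TL := by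
      refine AddMonoidHomClass.antilipschitz_of_bound TL fun w => ?_
      rw [Real.coe_toNNReal _ (inv_nonneg.mpr hδ.le)]
      have := hT' w
      rw [inv_mul_eq_div, le_div_iff₀ hδ, mul_comm]
      exact this
    exact h2.isClosed_range TL.uniformContinuous
  haveI : CompleteSpace R := hRc.completeSpace_coe
  let e : cyc π ξ ≃ₗ[ℂ] R := LinearEquiv.ofInjective T' hinj
  have he : ∀ w, ((e w : R) : H) = T w := fun w => rfl
  let A : G → (R →ₗ[ℂ] R) := fun g =>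
    (e : cyc π ξ →ₗ[ℂ] R).comp ((cycRep π ξ g : cyc π ξ →ₗ[ℂ] cyc π ξ).comp
      (e.symm : R →ₗ[ℂ] cyc π ξ))
  have hA : ∀ g r, A g r = e (cycRep π ξ g (e.symm r)) := fun g r => rfl
  have hA1 : ∀ r, A 1 r = r := fun r => by
    rw [hA, map_one]
    change e (e.symm r) = r
    rw [e.apply_symm_apply]
  have hAm : ∀ g k r, A (g * k) r = A g (A k r) := fun g k r => by
    rw [hA, hA, hA, e.symm_apply_apply, map_mul]
    rfl
  have hAn : ∀ g r, ‖A g r‖ = ‖r‖ := fun g r => by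
    rw [hA, Submodule.coe_norm, he, Submodule.coe_norm]
    have h1 := (hT (e.symm r : cyc π ξ) (e.symm r).2).2 g
    rw [cycRep_apply, h1, ← he, e.apply_symm_apply]
  let ρ : G →* (R ≃ₗᵢ[ℂ] R) :=
    { toFun := fun g =>
        { toLinearEquiv := LinearEquiv.ofLinear (A g) (A g⁻¹)
            (by ext1 r; change A g (A g⁻¹ r) = r; rw [← hAm, mul_inv_cancel, hA1])
            (by ext1 r; change A g⁻¹ (A g r) = r; rw [← hAm, inv_mul_cancel, hA1])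
          norm_map' := fun r => hAn g r }
      map_one' := by
        ext1 r
        exact hA1 r
      map_mul' := fun g k => by
        ext1 r
        exact hAm g k r }
  have hρ : ∀ g r, ρ g r = A g r := fun g r => rfl
  let f0 : R →ₗ[ℂ] ℂ :=
    ((innerSL ℂ ξ : H →L[ℂ] ℂ) : H →ₗ[ℂ] ℂ).comp ((cyc π ξ).subtype.comp e.symm.toLinearMap)
  have hf0 : ∀ r, ‖f0 r‖ ≤ (‖ξ‖ / δ) * ‖r‖ := by
    intro r
    have h1 : T' (e.symm r) = (r : H) := by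
      have := e.apply_symm_apply r
      exact congrArg Subtype.val this
    have h2 := hT' (e.symm r)
    rw [h1] at h2
    have h3 : ‖f0 r‖ ≤ ‖ξ‖ * ‖e.symm r‖ := norm_inner_le_norm _ _
    have h4 : ‖e.symm r‖ ≤ ‖(r : H)‖ / δ := by
      rw [le_div_iff₀ hδ]; linarith
    calc ‖f0 r‖ ≤ ‖ξ‖ * (‖(r : H)‖ / δ) :=
          h3.trans (mul_le_mul_of_nonneg_left h4 (norm_nonneg _))
      _ = (‖ξ‖ / δ) * ‖r‖ := by rw [Submodule.coe_norm]; ring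
  let F : R →L[ℂ] ℂ := f0.mkContinuous _ hf0
  refine ⟨R, inferInstance, inferInstance, inferInstance, toU ρ, e ⟨ξ, self_mem_cyc π ξ⟩,
    (InnerProductSpace.toDual ℂ R).symm F, fun g => ?_⟩
  rw [InnerProductSpace.toDual_symm_apply, toU_apply, hρ, hA, e.symm_apply_apply]
  change _ = ⟪ξ, (((e.symm (e (cycRep π ξ g ⟨ξ, self_mem_cyc π ξ⟩))) : cyc π ξ) : H)⟫_ℂ
  rw [e.symm_apply_apply]
  rfl

end H711R2.DX
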