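import Mathlib
import Pool.Agent.H711R2.DX.Crit

/-!
Unitarizability of representations of groups: the criteria.
-/

open scoped InnerProductSpace

noncomputable section

namespace H711R2.DX

variable {G : Type} [Group G] {H : Type} [NormedAddCommGroup H] [InnerProductSpace ℂ H]

/-- Linear extension of a coefficient of a unitary representation. -/
theorem bound_of_inB (π : G →* (H →L[ℂ] H)) (x y : H) (h : InB fun g => ⟪y, π g x⟫_ℂ) :
    ∃ n : ℕ, ∀ f, ‖⟪y, alg π f x⟫_ℂ‖ ≤ n * N f := by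
  obtain ⟨K, _, _, _, ρ, a, b, hab⟩ := h
  obtain ⟨n, hn⟩ := exists_nat_ge (‖b‖ * ‖a‖)
  refine ⟨n, fun f => ?_⟩
  have h1 : ⟪y, alg π f x⟫_ℂ = ⟪b, alg (ur ρ) f a⟫_ℂ := by
    induction f using MonoidAlgebra.induction_on with
    | of g =>
      rw [MonoidAlgebra.of_apply, alg_single, alg_single, one_smul, one_smul]
      exact hab g
    | add f g hf hg =>
      rw [map_add, map_add, ContinuousLinearMap.add_apply, ContinuousLinearMap.add_apply,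
        inner_add_right, inner_add_right, hf, hg]
    | smul r f hf =>
      rw [map_smul, map_smul, ContinuousLinearMap.smul_apply, ContinuousLinearMap.smul_apply,
        inner_smul_right, inner_smul_right, hf]
  rw [h1]
  calc ‖⟪b, alg (ur ρ) f a⟫_ℂ‖ ≤ ‖b‖ * ‖alg (ur ρ) f a‖ := norm_inner_le_norm _ _
    _ ≤ ‖b‖ * (‖alg (ur ρ) f‖ * ‖a‖) :=
        mul_le_mul_of_nonneg_left ((alg (ur ρ) f).le_opNorm a) (norm_nonneg _)
    _ = (‖b‖ * ‖a‖) * ‖alg (ur ρ) f‖ := by ring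
    _ ≤ n * N f := mul_le_mul hn (le_N ρ f) (norm_nonneg _) (Nat.cast_nonneg _)

/-- The vectors with a given bound. -/
def En (π : G →* (H →L[ℂ] H)) (n : ℕ) : Set H := {x | ∀ f, ‖⟪x, alg π f x⟫_ℂ‖ ≤ n * N f}

theorem En_closed (π : G →* (H →L[ℂ] H)) (n : ℕ) : IsClosed (En π n) := by
  have : En π n = ⋂ f, {x | ‖⟪x, alg π f x⟫_ℂ‖ ≤ n * N f} := by
    ext x; simp [En]
  rw [this]
  refine isClosed_iInter fun f => isClosed_le ?_ continuous_const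
  exact (continuous_id.inner (alg π f).continuous).norm

/-- Numerical radius. -/
theorem norm_le_of_quad (T : H →L[ℂ] H) (M : ℝ) (hM : 0 ≤ M) (h : ∀ x, ‖⟪x, T x⟫_ℂ‖ ≤ M * ‖x‖ ^ 2) :
    ‖T‖ ≤ 2 * M := by
  have key : ∀ x y : H, ‖x‖ ≤ 1 → ‖y‖ ≤ 1 → ‖⟪T y, x⟫_ℂ‖ ≤ 2 * M := by
    intro x y hx hy
    have h1 : ∀ z : H, ‖⟪T z, z⟫_ℂ‖ ≤ M * ‖z‖ ^ 2 := fun z => by
      rw [norm_inner_symm]; exact h z
    have hp := inner_map_polarization (T : H →ₗ[ℂ] H) x y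
    simp only [ContinuousLinearMap.coe_coe] at hp
    rw [hp, norm_div]
    have h4 : ‖(4 : ℂ)‖ = 4 := by norm_num
    rw [h4, div_le_iff₀ (by norm_num)]
    have hI : ‖Complex.I‖ = 1 := Complex.norm_I
    have e1 := h1 (x + y)
    have e2 := h1 (x - y)
    have e3 := h1 (x + Complex.I • y)
    have e4 := h1 (x - Complex.I • y)
    have p1 := parallelogram_law_with_norm ℂ x y
    have p2 := parallelogram_law_with_norm ℂ x (Complex.I • y)
    rw [norm_smul, hI, one_mul] at p2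
    have hs : ‖⟪T (x + y), x + y⟫_ℂ - ⟪T (x - y), x - y⟫_ℂ +
        Complex.I * ⟪T (x + Complex.I • y), x + Complex.I • y⟫_ℂ -
        Complex.I * ⟪T (x - Complex.I • y), x - Complex.I • y⟫_ℂ‖ ≤
        ‖⟪T (x + y), x + y⟫_ℂ‖ + ‖⟪T (x - y), x - y⟫_ℂ‖ +
        ‖⟪T (x + Complex.I • y), x + Complex.I • y⟫_ℂ‖ +
        ‖⟪T (x - Complex.I • y), x - Complex.I • y⟫_ℂ‖ := by
      refine (norm_sub_le _ _).trans ?_
      rw [norm_mul, hI, one_mul]
      gcongr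
      refine (norm_add_le _ _).trans ?_
      rw [norm_mul, hI, one_mul]
      gcongr
      exact norm_sub_le _ _
    refine hs.trans ?_
    have hx2 : ‖x‖ * ‖x‖ ≤ 1 := by nlinarith [norm_nonneg x]
    have hy2 : ‖y‖ * ‖y‖ ≤ 1 := by nlinarith [norm_nonneg y]
    have : M * ‖x + y‖ ^ 2 + M * ‖x - y‖ ^ 2 + M * ‖x + Complex.I • y‖ ^ 2 +
        M * ‖x - Complex.I • y‖ ^ 2 = M * (4 * (‖x‖ * ‖x‖ + ‖y‖ * ‖y‖)) := by
      rw [sq, sq, sq, sq]
      linear_combination M * p1 + M * p2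
    nlinarith
  refine ContinuousLinearMap.opNorm_le_bound _ (by positivity) fun y => ?_
  rcases eq_or_ne y 0 with rfl | hy
  · simp
  rcases eq_or_ne (T y) 0 with hTy | hTy
  · rw [hTy, norm_zero]; positivity
  have hy' : 0 < ‖y‖ := norm_pos_iff.mpr hy
  have hT' : 0 < ‖T y‖ := norm_pos_iff.mpr hTy
  have h1 := key (((‖T y‖ : ℂ)⁻¹) • T y) (((‖y‖ : ℂ)⁻¹) • y)
    (by rw [norm_smul]; simp [hT'.ne']) (by rw [norm_smul]; simp [hy'.ne'])
  rw [map_smul, inner_smul_left, inner_smul_right, norm_mul, norm_mul,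
    inner_self_eq_norm_sq_to_K] at h1
  have h2 : ‖(starRingEnd ℂ) ((‖y‖ : ℂ)⁻¹)‖ = ‖y‖⁻¹ := by simp
  have h3 : ‖((‖T y‖ : ℂ)⁻¹)‖ = ‖T y‖⁻¹ := by simp
  have h4 : ‖((‖T y‖ : ℂ) ^ 2)‖ = ‖T y‖ ^ 2 := by simp
  have h5 : ‖y‖⁻¹ * (‖T y‖⁻¹ * ‖T y‖ ^ 2) ≤ 2 * M := by
    have := h1
    rw [h2, h3] at this
    convert this using 3
    simp
  have h6 : ‖y‖⁻¹ * (‖T y‖⁻¹ * ‖T y‖ ^ 2) = ‖T y‖ / ‖y‖ := by
    field_simp
  rw [h6, div_le_iff₀ hy'] at h5
  exact h5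

/-- From a nonmeagre set of vectors to a bound in the norm of the group C*-algebra. -/
theorem bound_of_nonmeagre (π : G →* (H →L[ℂ] H))
    (h : ¬ IsMeagre {x : H | InB fun g => ⟪x, π g x⟫_ℂ}) :
    ∃ C : ℝ, 1 ≤ C ∧ ∀ f, ‖alg π f‖ ≤ C * N f := by
  have h1 : ∃ n : ℕ, (interior (En π n)).Nonempty := by
    by_contra hcon
    push_neg at hcon
    apply h
    have h2 : {x : H | InB fun g => ⟪x, π g x⟫_ℂ} ⊆ ⋃ n, En π n := by
      intro x hx
      obtain ⟨n, hn⟩ := bound_of_inB π x x hx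
      exact Set.mem_iUnion.mpr ⟨n, hn⟩
    refine IsMeagre.mono h2 (isMeagre_iUnion fun n => ?_)
    exact IsNowhereDense.isMeagre
      ((En_closed π n).isNowhereDense_iff.mpr (hcon n))
  obtain ⟨n, x0, hx0⟩ := h1
  obtain ⟨r, hr, hball⟩ := Metric.isOpen_iff.mp isOpen_interior x0 hx0
  have hE : ∀ z, ‖z‖ < r → ∀ f, ‖⟪z, alg π f z⟫_ℂ‖ ≤ 2 * n * N f := by
    intro z hz f
    have a0 : ‖⟪x0, alg π f x0⟫_ℂ‖ ≤ n * N f := interior_subset hx0 f
    have a1 : ‖⟪x0 + z, alg π f (x0 + z)⟫_ℂ‖ ≤ n * N f :=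
      interior_subset (hball (by simpa [Metric.mem_ball, dist_eq_norm] using hz)) f
    have a2 : ‖⟪x0 - z, alg π f (x0 - z)⟫_ℂ‖ ≤ n * N f :=
      interior_subset (hball (by simpa [Metric.mem_ball, dist_eq_norm] using hz)) f
    have e : ⟪z, alg π f z⟫_ℂ = (1 / 2 : ℂ) * (⟪x0 + z, alg π f (x0 + z)⟫_ℂ +
        ⟪x0 - z, alg π f (x0 - z)⟫_ℂ) - ⟪x0, alg π f x0⟫_ℂ := by
      rw [map_add, map_sub, inner_add_left, inner_sub_left, inner_add_right, inner_add_right,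
        inner_sub_right, inner_sub_right]
      ring
    rw [e]
    refine (norm_sub_le _ _).trans ?_
    rw [norm_mul]
    have hh : ‖(1 / 2 : ℂ)‖ = 1 / 2 := by norm_num
    rw [hh]
    have := norm_add_le ⟪x0 + z, alg π f (x0 + z)⟫_ℂ ⟪x0 - z, alg π f (x0 - z)⟫_ℂ
    nlinarith
  have hq : ∀ f (x : H), ‖⟪x, alg π f x⟫_ℂ‖ ≤ (8 * n / r ^ 2) * N f * ‖x‖ ^ 2 := by
    intro f x
    rcases eq_or_ne x 0 with rfl | hx
    · simp
    have hx' : 0 < ‖x‖ := norm_pos_iff.mpr hx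
    set t : ℝ := r / (2 * ‖x‖) with ht
    have ht0 : 0 < t := by positivity
    have h3 := hE ((t : ℂ) • x) (by
      rw [norm_smul, Complex.norm_real, Real.norm_of_nonneg ht0.le, ht]
      field_simp
      linarith) f
    rw [map_smul, inner_smul_left, inner_smul_right, norm_mul, norm_mul] at h3
    have h4 : ‖(starRingEnd ℂ) (t : ℂ)‖ = t := by
      rw [RCLike.norm_conj, Complex.norm_real, Real.norm_of_nonneg ht0.le]
    have h5 : ‖(t : ℂ)‖ = t := by rw [Complex.norm_real, Real.norm_of_nonneg ht0.le]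
    rw [h4, h5] at h3
    have h6 : ‖⟪x, alg π f x⟫_ℂ‖ = (t * (t * ‖⟪x, alg π f x⟫_ℂ‖)) * (4 * ‖x‖ ^ 2 / r ^ 2) := by
      rw [ht]; field_simp; ring
    rw [h6]
    calc t * (t * ‖⟪x, alg π f x⟫_ℂ‖) * (4 * ‖x‖ ^ 2 / r ^ 2)
        ≤ (2 * n * N f) * (4 * ‖x‖ ^ 2 / r ^ 2) :=
          mul_le_mul_of_nonneg_right h3 (by positivity)
      _ = (8 * n / r ^ 2) * N f * ‖x‖ ^ 2 := by ring
  refine ⟨2 * (8 * n / r ^ 2) + 1, by
    have : (0 : ℝ) ≤ 8 * n / r ^ 2 := by positivity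
    linarith, fun f => ?_⟩
  have h7 := norm_le_of_quad (alg π f) ((8 * n / r ^ 2) * N f)
    (mul_nonneg (by positivity) (N_nonneg f)) (hq f)
  have := N_nonneg f
  nlinarith

end H711R2.DX
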